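import Pool.Agent.H715.TW.Elem

/-!
# Quartic equations whose smallest rational solutions have the height of a tower of exponentials

If the integers were existentially definable in `ℚ`, then the smallest rational solutions of
equations of degree four could not be bounded by any computable function of the size of the
equation. Here we show (unconditionally) that they are not bounded by any elementary function, i.e.
by any iterated exponential of fixed height: there are polynomials of degree at most four and
of linear size which have rational zeros, but such that every rational zero has a coordinate whose
denominator is at least `tower n = 2 ^ (2 ^ (... ^ 2))` (`n` twos).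

Outline. The curve `y² = x³ + 105 x² + 2048 x` has rank one, and its points with `x ∈ □ ∪ -2□` are the
multiples of `P = (-32, 96)` (explicit descent). There are two existential tests: one at the
primes inert in `K = ℚ(√2)` (norm forms of quadratic fields; library), and one at the primes
inert in the cubic field `L` of conductor `7` (norm forms of Shanks's simplest cubic fields; its
completeness is the norm theorem for cyclic cubic fields, by the class field theory of the
library). They relate the multiples `M P` and `M' P`: a prime inert in `K` (resp. in `L`) which
divides the denominator of `x(2MP)` (resp. `x(7MP)`) to twice an odd power (resp. to a power prime to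
`3`) and does not divide `M` divides `M'`. By the behaviour of the quadratic character modulo `8` and of
the cubic character modulo `7` on the elliptic divisibility sequence, for every nonempty set `S` of
primes `≡ ±3 mod 8` dividing `M` there is a new prime inert in `L` whose rank of apparition has the
set of prime factors `S` (outside `7`), and for one half of the sets `S` of odd primes inert in `L`
dividing `M` there is a new prime inert in `K`. So from `b` primes inert in `K` one gets about
`2 ^ b / 2` primes inert in `L`, and then doubly exponentially many primes inert in `K`: after `2 n`
steps of the chain there is a tower of `n` exponentials.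
-/

namespace Pool.Agent.Results.MP_28f2cb_lc.TowerHeight

open MvPolynomial

/-- the tower of exponentials `1, 2, 4, 16, 65536, 2 ^ 65536, ...` -/
def tower : ℕ → ℕ
  | 0 => 1
  | n + 1 => 2 ^ tower n

theorem tower_eq : ∀ n, tower n = H715.TW.tower n
  | 0 => rfl
  | n + 1 => by
    show 2 ^ tower n = 2 ^ H715.TW.tower n
    rw [tower_eq n]

/-- **Smallest rational solutions of tower height.** There is a constant `C` such that for every `n`
there is a polynomial `p` of degree at most `4` in `C (n + 1)` variables with integer coefficients whose
absolute values sum to at most `C (n + 1)`, such that `p` has a rational zero, and every rational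
zero of `p` has a coordinate with denominator at least `tower n`.
In particular, for every `k` there are `N` and a polynomial `p` of degree at most `4` in `N`
variables with integer coefficients whose absolute values sum to at most `N`, which has a
rational zero, but all of whose rational zeros have a coordinate with denominator at least the
`k`-fold iterated exponential `2 ^ (2 ^ (... ^ (2 ^ N)))`. -/
theorem result :
    (∃ C : ℕ, ∀ n : ℕ, ∃ p : MvPolynomial (Fin (C * (n + 1))) ℤ,
      p.totalDegree ≤ 4 ∧ ∑ m ∈ p.support, |p.coeff m| ≤ C * (n + 1) ∧
      (∃ x : Fin (C * (n + 1)) → ℚ, aeval x p = 0) ∧
      ∀ x : Fin (C * (n + 1)) → ℚ, aeval x p = 0 → ∃ i, tower n ≤ (x i).den) ∧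
    ∀ k : ℕ, ∃ (N : ℕ) (p : MvPolynomial (Fin N) ℤ),
      p.totalDegree ≤ 4 ∧ ∑ m ∈ p.support, |p.coeff m| ≤ N ∧
      (∃ x : Fin N → ℚ, aeval x p = 0) ∧
      ∀ x : Fin N → ℚ, aeval x p = 0 → ∃ i, (fun m => 2 ^ m)^[k] N ≤ (x i).den := by
  refine ⟨?_, H715.TW.no_elementary_bound⟩
  obtain ⟨C, hC⟩ := H715.TW.tower_all
  refine ⟨C, fun n => ?_⟩
  obtain ⟨p, h1, h2, h3, h4⟩ := hC n
  refine ⟨p, h1, h2, h3, fun x hx => ?_⟩
  obtain ⟨i, hi⟩ := h4 x hx
  exact ⟨i, by rw [tower_eq]; exact hi⟩

end Pool.Agent.Results.MP_28f2cb_lc.TowerHeight
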