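import Pool.Agent.H912.AE.Fam2
import Pool.Agent.H912.AE.Dns

/-!
# A zero-one law for existentially definable sets of rational numbers

An arbitrary family `F(t; y) = 0` of closed subsets of `ℙ^n` with a parameter `t` defines, for
every `m`, the existentially definable set `D_m` of all `t ∈ ℚ` such that `F(t; x_0^m, ..., x_n^m)
= 0` has a nonzero solution `x` in `ℚ`.  We prove that for `100%` of all `m` no Boolean combination
of finitely many such sets is the set of integers, with arbitrary families which need not satisfy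
any local-global principle.  More precisely, for almost all `m` all Boolean combinations have
nearly density zero or nearly density one, in the integers and at the same time in the rational
numbers.
-/

set_option autoImplicit false

open Filter Topology

namespace Pool.Agent.Results.MP_28f2cb_lc.ZeroOneLaw

variable {n : ℕ}

/-- The polynomials in `S` define a family of closed subsets of `ℙ^n` with one parameter `t`: they
are forms in the last `n + 1` of their `1 + (n + 1)` variables. -/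
def IsFamily (S : Set (MvPolynomial (Fin (1 + (n + 1))) ℚ)) : Prop :=
  ∀ F ∈ S, ∃ d, ∀ α ∈ F.support, ∑ j : Fin (n + 1), α (Fin.natAdd 1 j) = d

/-- The set `D_m` of all rational `t` such that `F(t; x_0^m, ..., x_n^m) = 0` for all `F ∈ S`, for
some rational `x ≠ 0`. -/
def D (S : Set (MvPolynomial (Fin (1 + (n + 1))) ℚ)) (m : ℕ) : Set ℚ :=
  {t | ∃ x : Fin (n + 1) → ℚ, x ≠ 0 ∧
    ∀ F ∈ S, MvPolynomial.aeval (Fin.append (fun _ => t) (fun j => x j ^ m)) F = 0}

/-- The set `A` of positive integers has natural density `δ`. -/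
def HasDensity (A : Set ℕ) (δ : ℝ) : Prop :=
  Tendsto (fun N : ℕ => ((A ∩ Set.Icc 1 N).ncard : ℝ) / N) atTop (𝓝 δ)

/-- homogenization with respect to the parameter -/
noncomputable def hg (F : MvPolynomial (Fin (1 + (n + 1))) ℚ) :
    MvPolynomial (Fin (2 + (n + 1))) ℚ :=
  ∑ α ∈ F.support, MvPolynomial.monomial (Finsupp.equivFunOnFinite.symm
    (Fin.append ![α (Fin.castAdd (n + 1) 0), F.totalDegree - α (Fin.castAdd (n + 1) 0)]
      (fun j => α (Fin.natAdd 1 j)))) (F.coeff α)

lemma le_deg {F : MvPolynomial (Fin (1 + (n + 1))) ℚ} {α : Fin (1 + (n + 1)) →₀ ℕ}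
    (hα : α ∈ F.support) : α (Fin.castAdd (n + 1) 0) ≤ F.totalDegree := by
  refine le_trans ?_ (MvPolynomial.le_totalDegree hα)
  rw [Finsupp.sum_fintype _ _ (fun _ => rfl)]
  exact Finset.single_le_sum (f := fun i => α i) (fun _ _ => Nat.zero_le _) (Finset.mem_univ _)

lemma aeval_hg (F : MvPolynomial (Fin (1 + (n + 1))) ℚ) (a b : ℚ) (hb : b ≠ 0)
    (y : Fin (n + 1) → ℚ) : MvPolynomial.aeval (Fin.append ![a, b] y) (hg F) =
      b ^ F.totalDegree * MvPolynomial.aeval (Fin.append (fun _ => a / b) y) F := by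
  rw [hg, map_sum, MvPolynomial.aeval_def (Fin.append (fun _ => a / b) y), MvPolynomial.eval₂_eq',
    Finset.mul_sum]
  refine Finset.sum_congr rfl fun α hα => ?_
  rw [MvPolynomial.aeval_monomial, Finsupp.prod_fintype _ _ (fun _ => pow_zero _)]
  have e1 := Fin.prod_univ_add (a := 2) (b := n + 1) (fun i => (Fin.append ![a, b] y i) ^
    (Fin.append ![α (Fin.castAdd (n + 1) 0), F.totalDegree - α (Fin.castAdd (n + 1) 0)]
      (fun j => α (Fin.natAdd 1 j)) i))
  have e2 := Fin.prod_univ_add (a := 1) (b := n + 1)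
    (fun i => (Fin.append (fun _ => a / b) y i) ^ α i)
  have h1 : ∀ i, (Finsupp.equivFunOnFinite.symm
    (Fin.append ![α (Fin.castAdd (n + 1) 0), F.totalDegree - α (Fin.castAdd (n + 1) 0)]
      (fun j => α (Fin.natAdd 1 j)))) i = Fin.append ![α (Fin.castAdd (n + 1) 0),
        F.totalDegree - α (Fin.castAdd (n + 1) 0)] (fun j => α (Fin.natAdd 1 j)) i := fun i => rfl
  simp only [h1]
  rw [e1, e2]
  simp only [Fin.append_left, Fin.append_right, Fin.prod_univ_two, Matrix.cons_val_zero,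
    Matrix.cons_val_one, Finset.univ_unique, Finset.prod_singleton, Fin.default_eq_zero]
  have h2 : b ^ F.totalDegree = b ^ α (Fin.castAdd (n + 1) 0) *
      b ^ (F.totalDegree - α (Fin.castAdd (n + 1) 0)) := by
    rw [← pow_add, Nat.add_sub_cancel' (le_deg hα)]
  rw [h2, div_pow]
  field_simp

lemma hg_form {F : MvPolynomial (Fin (1 + (n + 1))) ℚ} {d : ℕ}
    (hF : ∀ α ∈ F.support, ∑ j : Fin (n + 1), α (Fin.natAdd 1 j) = d) :
    Pool.Agent.H912.AE.FormY (R := 2) (hg F) d := by
  classical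
  intro β hβ
  rw [hg] at hβ
  obtain ⟨α, hα, hβα⟩ := Finset.mem_biUnion.1 (MvPolynomial.support_sum hβ)
  have h1 := MvPolynomial.support_monomial_subset hβα
  rw [Finset.mem_singleton] at h1
  rw [← hF α hα, h1]
  refine Finset.sum_congr rfl fun j _ => ?_
  have h2 : (Finsupp.equivFunOnFinite.symm (Fin.append ![α (Fin.castAdd (n + 1) 0),
      F.totalDegree - α (Fin.castAdd (n + 1) 0)] (fun j => α (Fin.natAdd 1 j))))
        (Fin.natAdd 2 j) = Fin.append ![α (Fin.castAdd (n + 1) 0),
      F.totalDegree - α (Fin.castAdd (n + 1) 0)] (fun j => α (Fin.natAdd 1 j))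
        (Fin.natAdd 2 j) := rfl
  rw [h2, Fin.append_right]

/-- a rational point gives a point over the `q`-adic numbers -/
lemma toQ {R : ℕ} {S : Set (MvPolynomial (Fin (R + (n + 1))) ℚ)}
    {S' : Finset (MvPolynomial (Fin (R + (n + 1))) ℤ)}
    (hSS : ∀ (K : Type) [Field K] [Algebra ℚ K] (z : Fin (R + (n + 1)) → K),
        (∀ F ∈ S', MvPolynomial.aeval z F = 0) ↔ ∀ F ∈ S, MvPolynomial.aeval z F = 0)
    {m : ℕ} {c : Fin R → ℤ} {x : Fin (n + 1) → ℚ} (hx : x ≠ 0)
    (h : ∀ F ∈ S, MvPolynomial.aeval (Fin.append (fun i => (c i : ℚ)) (fun j => x j ^ m)) F = 0)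
    (q : ℕ) [Fact q.Prime] : Pool.Agent.H912.AE.HasQ S' m c q := by
  refine ⟨fun i => (x i : ℚ_[q]), ?_, ?_⟩
  · intro h0
    apply hx
    funext i
    have := congrFun h0 i
    simpa using this
  · intro F hF
    have h1 := (hSS ℚ _).2 h F hF
    have h2 := Pool.Agent.H912.AE.aeval_ringHom (algebraMap ℚ ℚ_[q])
      (Fin.append (fun i => (c i : ℚ)) (fun j => x j ^ m)) F
    rw [h1, map_zero, Pool.Agent.H912.AE.append_hom] at h2
    simp only [map_pow, eq_ratCast, Rat.cast_intCast] at h2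
    exact h2.symm

lemma toInt {R : ℕ} {S' : Finset (MvPolynomial (Fin (R + (n + 1))) ℤ)} {m : ℕ}
    {η : Fin (n + 1) → ℤ} {c : Fin R → ℤ}
    (h : ∀ F ∈ S', MvPolynomial.aeval (Fin.append c (fun i => η i ^ m)) F = 0) :
    ∀ F ∈ S', MvPolynomial.aeval (Fin.append (fun i => (c i : ℚ)) (fun j => (η j : ℚ) ^ m)) F
      = 0 := by
  intro F hF
  have h2 := Pool.Agent.H912.AE.aeval_ringHom (Int.castRingHom ℚ)
    (Fin.append c (fun j => η j ^ m)) F
  rw [h F hF, map_zero, Pool.Agent.H912.AE.append_hom] at h2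
  simp only [map_pow, eq_intCast] at h2
  exact h2.symm

/-- a trivial point for all pairs of integers gives the full set -/
lemma full_two {S : Set (MvPolynomial (Fin (1 + (n + 1))) ℚ)}
    {S' : Finset (MvPolynomial (Fin (2 + (n + 1))) ℤ)}
    (hSS : ∀ (K : Type) [Field K] [Algebra ℚ K] (z : Fin (2 + (n + 1)) → K),
        (∀ F ∈ S', MvPolynomial.aeval z F = 0) ↔ ∀ F ∈ hg '' S, MvPolynomial.aeval z F = 0)
    {m : ℕ} (hT : Pool.Agent.H912.AE.TrivB S' m) : D S m = Set.univ := by
  obtain ⟨η, hη0, -, h⟩ := hT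
  refine Set.eq_univ_of_forall fun t => ⟨fun i => (η i : ℚ), ?_, fun F hF => ?_⟩
  · intro h0
    apply hη0
    funext i
    have := congrFun h0 i
    simpa using this
  · have hd : ((t.den : ℤ) : ℚ) ≠ 0 := by
      have := t.den_nz
      exact_mod_cast this
    have h1 := (hSS ℚ _).1 (toInt (c := ![t.num, (t.den : ℤ)]) fun F hF => h F hF _) (hg F)
      ⟨F, hF, rfl⟩
    have h2 : (fun i => ((![t.num, (t.den : ℤ)] i : ℤ) : ℚ)) = ![(t.num : ℚ), ((t.den : ℤ) : ℚ)] := by
      funext i
      fin_cases i <;> rfl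
    rw [h2, aeval_hg F _ _ hd] at h1
    have h3 : (t.num : ℚ) / ((t.den : ℤ) : ℚ) = t := by
      push_cast
      exact t.num_div_den
    rw [h3] at h1
    rcases mul_eq_zero.1 h1 with h4 | h4
    · exact absurd h4 (pow_ne_zero _ hd)
    · exact h4

/-- a trivial point for all integers gives the full set -/
lemma full_one {S : Set (MvPolynomial (Fin (1 + (n + 1))) ℚ)}
    {S' : Finset (MvPolynomial (Fin (1 + (n + 1))) ℤ)}
    (hSS : ∀ (K : Type) [Field K] [Algebra ℚ K] (z : Fin (1 + (n + 1)) → K),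
        (∀ F ∈ S', MvPolynomial.aeval z F = 0) ↔ ∀ F ∈ S, MvPolynomial.aeval z F = 0)
    {m : ℕ} (hT : Pool.Agent.H912.AE.TrivB S' m) : D S m = Set.univ := by
  obtain ⟨η, hη0, -, h⟩ := hT
  refine Set.eq_univ_of_forall fun t => ⟨fun i => (η i : ℚ), ?_, (hSS ℚ _).1 fun F hF => ?_⟩
  · intro h0
    apply hη0
    funext i
    have := congrFun h0 i
    simpa using this
  · set p : Polynomial ℚ := MvPolynomial.aeval (Fin.append (fun _ => Polynomial.X)
      (fun j => Polynomial.C ((η j : ℚ) ^ m))) F with hp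
    have hev : ∀ t : ℚ, p.eval t =
        MvPolynomial.aeval (Fin.append (fun _ => t) (fun j => (η j : ℚ) ^ m)) F := by
      intro t
      have h1 := Pool.Agent.H912.AE.aeval_ringHom (Polynomial.evalRingHom t)
        (Fin.append (fun _ : Fin 1 => (Polynomial.X : Polynomial ℚ))
          (fun j => Polynomial.C ((η j : ℚ) ^ m))) F
      rw [Pool.Agent.H912.AE.append_hom] at h1
      simp only [Polynomial.coe_evalRingHom, Polynomial.eval_X, Polynomial.eval_C] at h1
      exact h1
    have hp0 : p = 0 := by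
      refine Polynomial.eq_zero_of_infinite_isRoot p (Set.infinite_of_injective_forall_mem
        (f := fun a : ℤ => (a : ℚ)) Int.cast_injective fun a => ?_)
      rw [Set.mem_ofPred_eq, Polynomial.IsRoot.def, hev]
      exact toInt (c := fun _ => a) (fun F hF => h F hF _) F hF
    rw [← hev, hp0, Polynomial.eval_zero]

open Classical in
/-- The integers `a`, `|a| ≤ H`, with the property `P`. -/
noncomputable def intCount (H : ℕ) (P : ℤ → Prop) : ℕ :=
  ((Finset.Icc (-(H : ℤ)) H).filter P).card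

open Classical in
/-- The pairs of integers `(a, b)`, `|a| ≤ H`, `1 ≤ b ≤ H`, with the property `P`. -/
noncomputable def pairCount (H : ℕ) (P : ℤ → ℤ → Prop) : ℕ :=
  ((Finset.Icc (-(H : ℤ)) H ×ˢ Finset.Icc (1 : ℤ) H).filter (fun p => P p.1 p.2)).card

/-- the counts for one set -/
lemma one_set {S : Set (MvPolynomial (Fin (1 + (n + 1))) ℚ)} (hS : IsFamily S) {ε : ℝ}
    (hε : 0 < ε) : ∃ H₀ N₀ : ℕ, ∀ M : ℕ, N₀ ≤ M → ∃ E : Finset ℕ, (E.card : ℝ) ≤ ε * M ∧
      ∀ m < M, m ∉ E → D S m = Set.univ ∨ ∀ H : ℕ, H₀ ≤ H →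
        (intCount H (fun a => (a : ℚ) ∈ D S m) : ℝ) ≤ ε * H ∧
        (pairCount H (fun a b => (a / b : ℚ) ∈ D S m) : ℝ) ≤ ε * H ^ 2 := by
  classical
  obtain ⟨S₁, hS₁, hSS₁⟩ := Pool.Agent.H912.AE.reduceF S hS
  obtain ⟨S₂, hS₂, hSS₂⟩ := Pool.Agent.H912.AE.reduceF (R := 2) (hg '' S) (by
    rintro _ ⟨F, hF, rfl⟩
    obtain ⟨d, hd⟩ := hS F hF
    exact ⟨d, hg_form hd⟩)
  obtain ⟨H₁, N₁, h₁⟩ := Pool.Agent.H912.AE.families S₁ hS₁ (ε := ε / 3) (by positivity)
  obtain ⟨H₂, N₂, h₂⟩ := Pool.Agent.H912.AE.families S₂ hS₂ (ε := ε / 3) (by positivity)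
  refine ⟨max 1 (max H₁ H₂), max N₁ N₂, fun M hM => ?_⟩
  have h1 := h₁ M ((le_max_left _ _).trans hM)
  have h2 := h₂ M ((le_max_right _ _).trans hM)
  set E₁ := (Finset.range M).filter (fun m =>
      ¬ (Pool.Agent.H912.AE.TrivB S₁ m ∨ ∀ (a : Fin 1 → ℤ) (H : Fin 1 → ℕ), (∀ i, H₁ ≤ H i) →
        (((Fintype.piFinset fun i => Finset.Ico (a i) (a i + H i)).filter (fun c =>
          ∀ (q : ℕ) [Fact q.Prime], q ≤ H₁ → Pool.Agent.H912.AE.HasQ S₁ m c q)).card : ℝ)
          ≤ ε / 3 * ∏ i, (H i : ℝ))) with hE₁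
  set E₂ := (Finset.range M).filter (fun m =>
      ¬ (Pool.Agent.H912.AE.TrivB S₂ m ∨ ∀ (a : Fin 2 → ℤ) (H : Fin 2 → ℕ), (∀ i, H₂ ≤ H i) →
        (((Fintype.piFinset fun i => Finset.Ico (a i) (a i + H i)).filter (fun c =>
          ∀ (q : ℕ) [Fact q.Prime], q ≤ H₂ → Pool.Agent.H912.AE.HasQ S₂ m c q)).card : ℝ)
          ≤ ε / 3 * ∏ i, (H i : ℝ))) with hE₂
  refine ⟨E₁ ∪ E₂, ?_, fun m hm hmE => ?_⟩
  · have h3 : ((E₁ ∪ E₂).card : ℝ) ≤ E₁.card + E₂.card := by
      exact_mod_cast Finset.card_union_le _ _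
    have h4 : (0 : ℝ) ≤ ε * M := by positivity
    linarith
  · rw [Finset.mem_union, not_or, hE₁, hE₂, Finset.mem_filter, Finset.mem_filter,
      Finset.mem_range] at hmE
    obtain ⟨hm1, hm2⟩ := hmE
    have hm1' := not_not.1 (fun h => hm1 ⟨hm, h⟩)
    have hm2' := not_not.1 (fun h => hm2 ⟨hm, h⟩)
    by_cases hfull : D S m = Set.univ
    · exact Or.inl hfull
    right
    rcases hm1' with hm1' | hm1'
    · exact absurd (full_one hSS₁ hm1') hfull
    rcases hm2' with hm2' | hm2'
    · exact absurd (full_two hSS₂ hm2') hfull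
    intro H hH
    have hH1 : 1 ≤ H := (le_max_left _ _).trans hH
    have hHH₁ : H₁ ≤ H := (le_max_left H₁ H₂).trans ((le_max_right _ _).trans hH)
    have hHH₂ : H₂ ≤ H := (le_max_right H₁ H₂).trans ((le_max_right _ _).trans hH)
    have hHr : (1 : ℝ) ≤ H := by exact_mod_cast hH1
    constructor
    · have h3 := hm1' (fun _ => -(H : ℤ)) (fun _ => 2 * H + 1) (fun _ => by omega)
      rw [Fin.prod_univ_one] at h3
      refine le_trans ?_ (h3.trans ?_)
      · unfold intCount
        have h4 : ((Finset.Icc (-(H : ℤ)) H).filter (fun a : ℤ => (a : ℚ) ∈ D S m)).card ≤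
            ((Fintype.piFinset fun i : Fin 1 => Finset.Ico ((fun _ => -(H : ℤ)) i)
              ((fun _ => -(H : ℤ)) i + ((fun _ => 2 * H + 1 : Fin 1 → ℕ) i : ℕ))).filter (fun c =>
          ∀ (q : ℕ) [Fact q.Prime], q ≤ H₁ → Pool.Agent.H912.AE.HasQ S₁ m c q)).card := by
          refine Finset.card_le_card_of_injOn (fun a => fun _ => a) ?_ ?_
          · intro a ha
            rw [Finset.mem_coe, Finset.mem_filter, Finset.mem_Icc] at ha
            rw [Finset.mem_coe, Finset.mem_filter, Fintype.mem_piFinset]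
            refine ⟨fun i => ?_, fun q _ _ => ?_⟩
            · rw [Finset.mem_Ico]
              push_cast
              omega
            · obtain ⟨x, hx, h⟩ := ha.2
              exact toQ hSS₁ hx h q
          · intro a _ b _ h
            exact congrFun h 0
        exact_mod_cast h4
      · push_cast
        nlinarith
    · have h3 := hm2' ![-(H : ℤ), 1] ![2 * H + 1, H] (fun i => by
        fin_cases i
        · change H₂ ≤ 2 * H + 1
          omega
        · exact hHH₂)
      rw [Fin.prod_univ_two] at h3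
      refine le_trans ?_ (h3.trans ?_)
      · unfold pairCount
        have h4 : ((Finset.Icc (-(H : ℤ)) H ×ˢ Finset.Icc (1 : ℤ) H).filter
            (fun p => ((p.1 : ℚ) / (p.2 : ℚ)) ∈ D S m)).card ≤
            ((Fintype.piFinset fun i : Fin 2 => Finset.Ico (![-(H : ℤ), 1] i)
              (![-(H : ℤ), 1] i + ((![2 * H + 1, H] : Fin 2 → ℕ) i : ℕ))).filter (fun c =>
          ∀ (q : ℕ) [Fact q.Prime], q ≤ H₂ → Pool.Agent.H912.AE.HasQ S₂ m c q)).card := by
          refine Finset.card_le_card_of_injOn (fun p => ![p.1, p.2]) ?_ ?_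
          · intro p hp
            rw [Finset.mem_coe, Finset.mem_filter, Finset.mem_product, Finset.mem_Icc,
              Finset.mem_Icc] at hp
            rw [Finset.mem_coe, Finset.mem_filter, Fintype.mem_piFinset]
            refine ⟨fun i => ?_, fun q _ _ => ?_⟩
            · fin_cases i
              · simp only [Fin.zero_eta, Matrix.cons_val_zero, Finset.mem_Ico]
                push_cast
                omega
              · simp only [Fin.mk_one, Matrix.cons_val_one, Matrix.cons_val_fin_one,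
                  Finset.mem_Ico]
                omega
            · obtain ⟨x, hx, h⟩ := hp.2
              have hp2 : (p.2 : ℚ) ≠ 0 := by
                have : p.2 ≠ 0 := by omega
                exact_mod_cast this
              refine toQ hSS₂ hx ?_ q
              rintro _ ⟨F, hF, rfl⟩
              have h5 : (fun i => ((![p.1, p.2] i : ℤ) : ℚ)) = ![(p.1 : ℚ), (p.2 : ℚ)] := by
                funext i
                fin_cases i <;> rfl
              rw [h5, aeval_hg F _ _ hp2, h F hF, mul_zero]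
          · intro p _ p' _ h
            have e1 := congrFun h 0
            have e2 := congrFun h 1
            exact Prod.ext e1 e2
        exact_mod_cast h4
      · simp only [Matrix.cons_val_zero, Matrix.cons_val_one, Matrix.cons_val_fin_one]
        push_cast
        have h5 : (2 * (H : ℝ) + 1) * H ≤ 3 * (H : ℝ) ^ 2 := by nlinarith
        have h6 := mul_le_mul_of_nonneg_left h5 (by positivity : 0 ≤ ε / 3)
        linarith

open Classical in
lemma intCount_le {r : ℕ} (H : ℕ) (P : ℤ → Prop) (T : Fin r → Prop) (Q : Fin r → ℤ → Prop)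
    (h : ∀ a, P a → ∃ i, ¬ T i ∧ Q i a) :
    intCount H P ≤ ∑ i, if T i then 0 else intCount H (Q i) := by
  unfold intCount
  have h2 : (Finset.Icc (-(H : ℤ)) H).filter P ⊆ Finset.univ.biUnion fun i =>
      if T i then ∅ else (Finset.Icc (-(H : ℤ)) H).filter (Q i) := by
    intro a ha
    rw [Finset.mem_filter] at ha
    obtain ⟨i, hi, hi'⟩ := h _ ha.2
    refine Finset.mem_biUnion.2 ⟨i, Finset.mem_univ _, ?_⟩
    rw [if_neg hi, Finset.mem_filter]
    exact ⟨ha.1, hi'⟩
  refine (Finset.card_le_card h2).trans (Finset.card_biUnion_le.trans (le_of_eq ?_))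
  refine Finset.sum_congr rfl fun i _ => ?_
  split_ifs
  · rfl
  · rfl

open Classical in
lemma pairCount_le {r : ℕ} (H : ℕ) (P : ℤ → ℤ → Prop) (T : Fin r → Prop)
    (Q : Fin r → ℤ → ℤ → Prop) (h : ∀ a b, P a b → ∃ i, ¬ T i ∧ Q i a b) :
    pairCount H P ≤ ∑ i, if T i then 0 else pairCount H (Q i) := by
  unfold pairCount
  have h2 : (Finset.Icc (-(H : ℤ)) H ×ˢ Finset.Icc (1 : ℤ) H).filter (fun p => P p.1 p.2) ⊆
      Finset.univ.biUnion fun i => if T i then ∅ else
        (Finset.Icc (-(H : ℤ)) H ×ˢ Finset.Icc (1 : ℤ) H).filter (fun p => Q i p.1 p.2) := by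
    intro a ha
    rw [Finset.mem_filter] at ha
    obtain ⟨i, hi, hi'⟩ := h _ _ ha.2
    refine Finset.mem_biUnion.2 ⟨i, Finset.mem_univ _, ?_⟩
    rw [if_neg hi, Finset.mem_filter]
    exact ⟨ha.1, hi'⟩
  refine (Finset.card_le_card h2).trans (Finset.card_biUnion_le.trans (le_of_eq ?_))
  refine Finset.sum_congr rfl fun i _ => ?_
  split_ifs
  · rfl
  · rfl

open Classical in
lemma intCount_all (H : ℕ) (P : ℤ → Prop) (h : ∀ a, P a) : intCount H P = 2 * H + 1 := by
  unfold intCount
  rw [Finset.filter_true_of_mem fun a _ => h a, Int.card_Icc]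
  omega

open Classical in
lemma pairCount_ge (h : ℕ) (P : ℤ → ℤ → Prop)
    (hP : ∀ u ∈ Finset.range h, ∀ v ∈ Finset.range h, P (2 * (u : ℤ) + 1) (2 * (v : ℤ) + 2)) :
    h * h ≤ pairCount (2 * h) P := by
  unfold pairCount
  have h1 : ((Finset.range h) ×ˢ (Finset.range h)).card ≤
      ((Finset.Icc (-((2 * h : ℕ) : ℤ)) (2 * h : ℕ) ×ˢ Finset.Icc (1 : ℤ) (2 * h : ℕ)).filter
        (fun p => P p.1 p.2)).card := by
    refine Finset.card_le_card_of_injOn
      (fun p => (2 * (p.1 : ℤ) + 1, 2 * (p.2 : ℤ) + 2)) ?_ ?_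
    · intro p hp
      rw [Finset.mem_coe, Finset.mem_product] at hp
      rw [Finset.mem_coe, Finset.mem_filter, Finset.mem_product, Finset.mem_Icc, Finset.mem_Icc]
      have e1 := Finset.mem_range.1 hp.1
      have e2 := Finset.mem_range.1 hp.2
      refine ⟨⟨⟨?_, ?_⟩, ?_, ?_⟩, hP _ hp.1 _ hp.2⟩
      all_goals push_cast
      all_goals omega
    · intro p _ p' _ hpp
      have e1 := congrArg Prod.fst hpp
      have e2 := congrArg Prod.snd hpp
      simp only at e1 e2
      exact Prod.ext (by omega) (by omega)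
  rwa [Finset.card_product, Finset.card_range] at h1

/-- **Main theorem.** Let `S_1, ..., S_r` be arbitrary families of closed subsets of projective
spaces over `ℚ` with a parameter `t`, and let `D_i = D (S_i) m` be the set of all rational `t` such
that `F(t; x_0^m, ..., x_n^m) = 0`, `F ∈ S_i`, has a rational solution `x ≠ 0`.

1. For every `ε > 0` and all `m` outside a set of natural density zero the following holds: let `V`
   be the set of the `i` with `D_i = ℚ`. For all large `H`, all but at most `ε H` of the integers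
   `a` with `|a| ≤ H` and all but at most `ε H ^ 2` of the fractions `a / b` with `|a| ≤ H`,
   `1 ≤ b ≤ H` belong to exactly those `D_i` with `i ∈ V`.
2. For all `m` outside a set of natural density zero the set of integers is not a Boolean
   combination of the sets `D_1, ..., D_r`. -/
theorem result {r : ℕ} (n : Fin r → ℕ) (S : ∀ i, Set (MvPolynomial (Fin (1 + (n i + 1))) ℚ))
    (hS : ∀ i, IsFamily (S i)) :
    (∀ ε : ℝ, 0 < ε → HasDensity {m | ∃ H₀ : ℕ, ∀ H : ℕ, H₀ ≤ H →
      (intCount H (fun a => {i | (a : ℚ) ∈ D (S i) m} ≠ {i | D (S i) m = Set.univ}) : ℝ) ≤ ε * H ∧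
      (pairCount H (fun a b => {i | (a / b : ℚ) ∈ D (S i) m} ≠ {i | D (S i) m = Set.univ}) : ℝ)
        ≤ ε * H ^ 2} 1) ∧
    HasDensity {m | ∀ B : Set (Set (Fin r)),
      {t : ℚ | {i | t ∈ D (S i) m} ∈ B} ≠ Set.range (fun a : ℤ => (a : ℚ))} 1 := by
  classical
  have main : ∀ ε : ℝ, 0 < ε → HasDensity {m | ∃ H₀ : ℕ, ∀ H : ℕ, H₀ ≤ H →
      (intCount H (fun a => {i | (a : ℚ) ∈ D (S i) m} ≠ {i | D (S i) m = Set.univ}) : ℝ) ≤ ε * H ∧
      (pairCount H (fun a b => {i | (a / b : ℚ) ∈ D (S i) m} ≠ {i | D (S i) m = Set.univ}) : ℝ)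
        ≤ ε * H ^ 2} 1 := by
    intro ε hε
    refine Pool.Agent.H912.AE.full_of fun ε' hε' => ?_
    set δ : ℝ := min ε ε' / (r + 1) with hδ
    have hr1 : (0 : ℝ) < r + 1 := by positivity
    have hδ0 : 0 < δ := div_pos (lt_min hε hε') hr1
    choose H₀ N₀ h using fun i => one_set (hS i) hδ0
    refine ⟨∑ i, N₀ i, fun M hM => ?_⟩
    choose E hE hEm using fun i => h i M
      ((Finset.single_le_sum (f := N₀) (fun _ _ => Nat.zero_le _) (Finset.mem_univ i)).trans hM)
    have hsub : (Finset.range M).filter (fun m => m ∉ {m | ∃ H₀ : ℕ, ∀ H : ℕ, H₀ ≤ H →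
      (intCount H (fun a => {i | (a : ℚ) ∈ D (S i) m} ≠ {i | D (S i) m = Set.univ}) : ℝ) ≤ ε * H ∧
      (pairCount H (fun a b => {i | (a / b : ℚ) ∈ D (S i) m} ≠ {i | D (S i) m = Set.univ}) : ℝ)
        ≤ ε * H ^ 2}) ⊆ Finset.univ.biUnion E := by
      intro m hm
      rw [Finset.mem_filter, Finset.mem_range] at hm
      rw [Finset.mem_biUnion]
      by_contra hno
      push Not at hno
      refine hm.2 ⟨∑ i, H₀ i, fun H hH => ?_⟩
      have hHi : ∀ i, H₀ i ≤ H := fun i => (Finset.single_le_sum (f := H₀)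
        (fun _ _ => Nat.zero_le _) (Finset.mem_univ i)).trans hH
      have hcase : ∀ i, D (S i) m ≠ Set.univ →
          (intCount H (fun a => (a : ℚ) ∈ D (S i) m) : ℝ) ≤ δ * H ∧
          (pairCount H (fun a b => (a / b : ℚ) ∈ D (S i) m) : ℝ) ≤ δ * H ^ 2 := by
        intro i hi
        rcases hEm i m hm.1 (hno i (Finset.mem_univ i)) with h1 | h1
        · exact absurd h1 hi
        · exact h1 H (hHi i)
      -- the type differs only if one of the small sets contains the number
      have htype : ∀ t : ℚ, {i | t ∈ D (S i) m} ≠ {i | D (S i) m = Set.univ} →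
          ∃ i, D (S i) m ≠ Set.univ ∧ t ∈ D (S i) m := by
        intro t ht
        by_contra hno'
        push Not at hno'
        apply ht
        ext i
        simp only [Set.mem_ofPred_eq]
        constructor
        · intro h1
          by_contra h2
          exact hno' i h2 h1
        · intro h1
          rw [h1]
          trivial
      have hle : (r : ℝ) * δ ≤ ε := by
        rw [hδ, ← mul_div_assoc, div_le_iff₀ hr1]
        have h1 : min ε ε' ≤ ε := min_le_left _ _
        have h2 : (0 : ℝ) ≤ r := Nat.cast_nonneg _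
        have h3 : 0 < min ε ε' := lt_min hε hε'
        nlinarith
      have hsum : ∀ {X : ℝ} {f : Fin r → ℝ}, 0 ≤ X → (∀ i, f i ≤ δ * X) → ∑ i, f i ≤ ε * X := by
        intro X f hX hf
        calc ∑ i, f i ≤ ∑ _i : Fin r, δ * X := Finset.sum_le_sum fun i _ => hf i
          _ = (r * δ) * X := by
            rw [Finset.sum_const, Finset.card_univ, Fintype.card_fin, nsmul_eq_mul]
            ring
          _ ≤ ε * X := mul_le_mul_of_nonneg_right hle hX
      constructor
      · have h1 := intCount_le H (fun a => {i | (a : ℚ) ∈ D (S i) m} ≠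
            {i | D (S i) m = Set.univ}) (fun i => D (S i) m = Set.univ)
            (fun i a => (a : ℚ) ∈ D (S i) m) (fun a ha => htype _ ha)
        refine le_trans ((Nat.cast_le (α := ℝ)).2 h1) ?_
        rw [Nat.cast_sum]
        refine hsum (Nat.cast_nonneg _) fun i => ?_
        split_ifs with h3
        · rw [Nat.cast_zero]
          positivity
        · exact (hcase i h3).1
      · have h1 := pairCount_le H (fun a b => {i | (a / b : ℚ) ∈ D (S i) m} ≠
            {i | D (S i) m = Set.univ}) (fun i => D (S i) m = Set.univ)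
            (fun i a b => (a / b : ℚ) ∈ D (S i) m) (fun a b ha => htype _ ha)
        refine le_trans ((Nat.cast_le (α := ℝ)).2 h1) ?_
        rw [Nat.cast_sum]
        refine hsum (by positivity) fun i => ?_
        split_ifs with h3
        · rw [Nat.cast_zero]
          positivity
        · exact (hcase i h3).2
    have h1 : (((Finset.range M).filter (fun m => m ∉ {m | ∃ H₀ : ℕ, ∀ H : ℕ, H₀ ≤ H →
      (intCount H (fun a => {i | (a : ℚ) ∈ D (S i) m} ≠ {i | D (S i) m = Set.univ}) : ℝ) ≤ ε * H ∧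
      (pairCount H (fun a b => {i | (a / b : ℚ) ∈ D (S i) m} ≠ {i | D (S i) m = Set.univ}) : ℝ)
        ≤ ε * H ^ 2})).card : ℝ) ≤ ∑ i, ((E i).card : ℝ) := by
      exact_mod_cast (Finset.card_le_card hsub).trans Finset.card_biUnion_le
    refine h1.trans ?_
    calc ∑ i, ((E i).card : ℝ) ≤ ∑ _i : Fin r, δ * M := Finset.sum_le_sum fun i _ => hE i
      _ = (r * δ) * M := by
        rw [Finset.sum_const, Finset.card_univ, Fintype.card_fin, nsmul_eq_mul]
        ring
      _ ≤ ε' * M := by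
        refine mul_le_mul_of_nonneg_right ?_ (Nat.cast_nonneg _)
        rw [hδ, ← mul_div_assoc, div_le_iff₀ hr1]
        have h1 : min ε ε' ≤ ε' := min_le_right _ _
        have h2 : (0 : ℝ) ≤ r := Nat.cast_nonneg _
        have h3 : 0 < min ε ε' := lt_min hε hε'
        nlinarith
  refine ⟨main, ?_⟩
  refine Pool.Agent.H912.AE.density_congr (main (1 / 8) (by norm_num))
    Pool.Agent.H912.AE.density_univ fun m hm hm1 => ⟨fun _ => Set.mem_univ _, fun _ => ?_⟩
  intro B hB
  obtain ⟨H₀, hH⟩ := hm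
  set V : Set (Fin r) := {i | D (S i) m = Set.univ} with hV
  -- an integer of the generic type
  set h : ℕ := H₀ + 1 with hh
  obtain ⟨h1, h2⟩ := hH (2 * h) (by omega)
  have hh1 : (1 : ℝ) ≤ h := by
    rw [hh]
    push_cast
    linarith [(Nat.cast_nonneg H₀ : (0 : ℝ) ≤ H₀)]
  have hVB : V ∈ B := by
    have h3 : ∃ a : ℤ, {i | (a : ℚ) ∈ D (S i) m} = V := by
      by_contra hno
      push Not at hno
      have h4 := intCount_all (2 * h) (fun a => {i | (a : ℚ) ∈ D (S i) m} ≠ V) hno
      rw [h4] at h1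
      push_cast at h1
      nlinarith
    obtain ⟨a, ha⟩ := h3
    have h4 : (a : ℚ) ∈ {t : ℚ | {i | t ∈ D (S i) m} ∈ B} := by
      rw [hB]
      exact ⟨a, rfl⟩
    rw [Set.mem_ofPred_eq, ha] at h4
    exact h4
  -- a fraction of the generic type which is not an integer
  have h3 : ∃ u ∈ Finset.range h, ∃ v ∈ Finset.range h,
      {i | ((2 * (u : ℤ) + 1 : ℤ) / (2 * (v : ℤ) + 2 : ℤ) : ℚ) ∈ D (S i) m} = V := by
    by_contra hno
    push Not at hno
    have h4 := pairCount_ge h (fun a b => {i | (a / b : ℚ) ∈ D (S i) m} ≠ V) hno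
    have h5 : ((h * h : ℕ) : ℝ) ≤ 1 / 8 * ((2 * h : ℕ) : ℝ) ^ 2 :=
      le_trans (by exact_mod_cast h4) h2
    push_cast at h5
    nlinarith
  obtain ⟨u, -, v, -, huv⟩ := h3
  have h4 : ((2 * (u : ℤ) + 1 : ℤ) / (2 * (v : ℤ) + 2 : ℤ) : ℚ) ∈
      {t : ℚ | {i | t ∈ D (S i) m} ∈ B} := by
    rw [Set.mem_ofPred_eq, huv]
    exact hVB
  rw [hB] at h4
  obtain ⟨a, ha⟩ := h4
  have h5 : ((2 * (v : ℤ) + 2 : ℤ) : ℚ) ≠ 0 := by
    have : (2 * (v : ℤ) + 2 : ℤ) ≠ 0 := by omega
    exact_mod_cast this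
  change (a : ℚ) = _ at ha
  rw [eq_div_iff h5] at ha
  have h6 : a * (2 * (v : ℤ) + 2) = 2 * (u : ℤ) + 1 := by exact_mod_cast ha
  have h7 : (2 : ℤ) ∣ 2 * (u : ℤ) + 1 := by
    rw [← h6]
    exact ⟨a * (v + 1), by ring⟩
  omega

end Pool.Agent.Results.MP_28f2cb_lc.ZeroOneLaw
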